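import Pool.Agent.K3h1.SX.StmB

/-!
# Project SX: the brick BLIN
-/

set_option autoImplicit false

namespace Pool.Agent.K3h33.SX

open Polynomial IsDedekindDomain NumberField WithZero

theorem t_BLIN : Pool.Agent.K3h1.SX.S_BLIN' := by
  intro p hpf E _ _ c P hP hv e A₀ A₁ he
  have hp : p.Prime := hpf.out
  have hp0 : (p : E) ≠ 0 := by exact_mod_cast hp.ne_zero
  set e1 : E := (e - ((A₀ : E) + (A₁ : E) * c.z)) / p with he1
  have h1 : P.valuation E e1 ≤ 1 := by
    rw [he1, map_div₀, hv]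
    exact div_le_one_of_le₀ he zero_le
  have hpe1 : (p : E) * e1 = e - ((A₀ : E) + (A₁ : E) * c.z) := by
    rw [he1]
    field_simp
  have halg : IsAlgebraic ℤ e1 :=
    (IsFractionRing.isAlgebraic_iff ℤ ℚ E).mpr (Algebra.IsAlgebraic.isAlgebraic e1)
  obtain ⟨n, hn0, hn⟩ := halg.exists_integral_multiple
  have hfm : FiniteMultiplicity (p : ℤ) n := by
    rw [Int.finiteMultiplicity_iff]
    refine ⟨?_, hn0⟩
    rw [Int.natAbs_natCast]
    exact hp.one_lt.ne'
  obtain ⟨m, hm, hpm⟩ := hfm.exists_eq_pow_mul_and_not_dvd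
  set k := multiplicity (p : ℤ) n
  have h2 : ∀ Q : HeightOneSpectrum (𝓞 E), Q.valuation E ((m : E) * e1) ≤ 1 := by
    intro Q
    by_cases hQ : ((p : ℕ) : 𝓞 E) ∈ Q.asIdeal
    · have h3 := hP Q hQ
      subst h3
      rw [map_mul]
      refine mul_le_one' ?_ h1
      have h4 := Q.valuation_le_one (K := E) ((m : ℤ) : 𝓞 E)
      simpa using h4
    · have h3 : Q.valuation E (p : E) = 1 := by
        have h4 := Q.valuation_le_one (K := E) ((p : ℕ) : 𝓞 E)
        have h5 : ¬ Q.valuation E (algebraMap (𝓞 E) E ((p : ℕ) : 𝓞 E)) < 1 := by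
          rw [HeightOneSpectrum.valuation_lt_one_iff_mem]
          exact hQ
        have h6 := le_antisymm h4 (not_lt.mp h5)
        simpa using h6
      have h4 : Q.valuation E ((p : E) ^ k * ((m : E) * e1)) ≤ 1 := by
        have h5 : (p : E) ^ k * ((m : E) * e1) = n • e1 := by
          rw [← mul_assoc, zsmul_eq_mul, hm]
          push_cast
          rfl
        rw [h5]
        have h6 := Q.valuation_le_one (K := E) (⟨n • e1, hn⟩ : 𝓞 E)
        exact h6
      rw [map_mul, map_pow, h3, one_pow, one_mul] at h4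
      exact h4
  obtain ⟨y, hy⟩ := HeightOneSpectrum.mem_integers_of_valuation_le_one (R := 𝓞 E) E _ h2
  have h3 : IsIntegral ℤ ((m : E) * e1) := by
    rw [← hy]
    exact y.2
  obtain ⟨a, ha⟩ := c.gen _ h3
  refine ⟨m, a, hpm, ?_⟩
  have h4 : (m : E) * e = m * ((A₀ : E) + (A₁ : E) * c.z) + p * ((m : E) * e1) := by
    have h5 : (m : E) * (p * e1) = m * (e - ((A₀ : E) + (A₁ : E) * c.z)) := by rw [hpe1]
    linear_combination -h5
  rw [h4, ha]
  simp

end Pool.Agent.K3h33.SX
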